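import Mathlib

set_option autoImplicit false

namespace Pool.Agent.Lib.Pae074a

open Finset

variable {p n : ℕ} [Fact p.Prime]

/-- index tuples -/
abbrev Idx (p n : ℕ) := ZMod p → Fin n
/-- vectors -/
abbrev Vec (p n : ℕ) := Fin n → ZMod p
/-- tensors -/
abbrev Ten (p n : ℕ) := Idx p n → ZMod p

/-- The pure tensor. -/
def pure (x : ZMod p → Vec p n) : Ten p n := fun k => ∏ c, x c (k c)

/-- The product of `p` determinants, extended to all tensors. -/
noncomputable def omega (p n : ℕ) [Fact p.Prime] :
    MultilinearMap (ZMod p) (fun _ : Fin n => Ten p n) (ZMod p) :=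
  ∑ r : ZMod p → Fin n → Fin n,
    (∏ c, Matrix.det (Matrix.of fun j => (Pi.single (r c j) 1 : Vec p n))) •
      (MultilinearMap.mkPiAlgebra (ZMod p) (Fin n) (ZMod p)).compLinearMap
        (fun j => (LinearMap.proj (fun c => r c j) : Ten p n →ₗ[ZMod p] ZMod p))

theorem omega_apply (t : Fin n → Ten p n) :
    omega p n t = ∑ r : ZMod p → Fin n → Fin n,
      (∏ c, Matrix.det (Matrix.of fun j => (Pi.single (r c j) 1 : Vec p n))) *
        ∏ j, t j (fun c => r c j) := by
  simp [omega]

theorem det_expand (M : Fin n → Vec p n) :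
    Matrix.det (Matrix.of M) =
      ∑ s : Fin n → Fin n, (∏ j, M j (s j)) *
        Matrix.det (Matrix.of fun j => (Pi.single (s j) 1 : Vec p n)) := by
  have h1 : M = fun j => ∑ k : Fin n, M j k • (Pi.single k 1 : Vec p n) := by
    funext j
    exact (pi_eq_sum_univ' (M j)).trans (by
      refine Finset.sum_congr rfl fun k _ => ?_
      congr 1)
  have h2 : Matrix.det (Matrix.of M)
      = (Matrix.detRowAlternating (R := ZMod p) (n := Fin n)).toMultilinearMap M := rfl
  rw [h2]
  conv_lhs => rw [h1]
  rw [MultilinearMap.map_sum]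
  refine Finset.sum_congr rfl fun s _ => ?_
  rw [MultilinearMap.map_smul_univ]
  rfl

theorem omega_pure (x : Fin n → ZMod p → Vec p n) :
    omega p n (fun j => pure (x j)) = ∏ c, Matrix.det (Matrix.of fun j => x j c) := by
  rw [omega_apply]
  have h : ∀ c : ZMod p, Matrix.det (Matrix.of fun j => x j c) = _ :=
    fun c => det_expand (fun j => x j c)
  simp_rw [h]
  rw [Finset.prod_univ_sum]
  rw [Fintype.piFinset_univ]
  refine Finset.sum_congr rfl fun r _ => ?_
  rw [Finset.prod_mul_distrib, mul_comm]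
  congr 1
  unfold pure
  exact Finset.prod_comm

/-- Shift of tensors. -/
noncomputable def sh (d : ZMod p) : Ten p n →ₗ[ZMod p] Ten p n :=
  LinearMap.funLeft (ZMod p) (ZMod p) (fun (k : Idx p n) (c : ZMod p) => k (c - d))

theorem sh_apply (d : ZMod p) (t : Ten p n) (k : Idx p n) :
    sh d t k = t (fun c => k (c - d)) := rfl

theorem sh_pure (d : ZMod p) (x : ZMod p → Vec p n) :
    sh d (pure x) = pure (fun c => x (c + d)) := by
  funext k
  rw [sh_apply]
  unfold pure
  exact (Fintype.prod_equiv (Equiv.addRight d) (fun c => x (c + d) (k c))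
    (fun c => x c (k (c - d))) (fun c => by simp)).symm

theorem sh_sh (d e : ZMod p) (t : Ten p n) : sh d (sh e t) = sh (d + e) t := by
  funext k
  simp only [sh_apply]
  congr 1
  funext c
  congr 1
  ring

theorem sh_zero (t : Ten p n) : sh 0 t = t := by
  funext k
  simp [sh_apply]

theorem omega_sh (d : ZMod p) (t : Fin n → Ten p n) :
    omega p n (fun j => sh d (t j)) = omega p n t := by
  rw [omega_apply, omega_apply]
  refine Fintype.sum_equiv (Equiv.arrowCongr (Equiv.addRight d) (Equiv.refl _)) _ _ fun r => ?_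
  congr 1
  · exact Fintype.prod_equiv (Equiv.addRight d) _ _ (fun c => by simp)
  · refine Finset.prod_congr rfl fun j _ => ?_
    rw [sh_apply]
    congr 1
    funext c
    simp [Equiv.arrowCongr, sub_eq_add_neg]

/-- The main form. -/
noncomputable def al (j0 : Fin n) : MultilinearMap (ZMod p) (fun _ : Fin n => Ten p n) (ZMod p) :=
  ∑ ε ∈ Finset.univ.filter (fun ε : Fin n → ZMod p => ε j0 = 0),
    (omega p n).compLinearMap (fun j => sh (ε j))

theorem al_apply (j0 : Fin n) (t : Fin n → Ten p n) :
    al j0 t = ∑ ε ∈ Finset.univ.filter (fun ε : Fin n → ZMod p => ε j0 = 0),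
      omega p n (fun j => sh (ε j) (t j)) := by
  simp [al]

theorem al_base (j0 j1 : Fin n) (t : Fin n → Ten p n) : al j0 t = al j1 t := by
  rw [al_apply, al_apply]
  refine Finset.sum_bij' (fun ε _ => fun j => -ε j1 + ε j) (fun ε _ => fun j => -ε j0 + ε j)
    ?_ ?_ ?_ ?_ ?_
  · intro ε hε
    simp
  · intro ε hε
    simp
  · intro ε hε
    simp only [mem_filter, mem_univ, true_and] at hε
    funext j
    simp [hε]
  · intro ε hε
    simp only [mem_filter, mem_univ, true_and] at hε
    funext j
    simp [hε]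
  · intro ε hε
    rw [← omega_sh (-ε j1)]
    simp_rw [sh_sh]

/-- A sum over functions to `ZMod p` which is invariant under a partial diagonal shift
vanishes. -/
theorem sum_shift_zero {ι : Type*} [Fintype ι] [DecidableEq ι] (C : ι → Prop) [DecidablePred C]
    (j : ι) (hj : C j) (S : Finset (ι → ZMod p)) (G : (ι → ZMod p) → ZMod p)
    (hS : ∀ ε ∈ S, ∀ d : ZMod p, (fun i => if C i then ε i + d else ε i) ∈ S)
    (hG : ∀ ε ∈ S, ∀ d : ZMod p, G (fun i => if C i then ε i + d else ε i) = G ε) :
    ∑ ε ∈ S, G ε = 0 := by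
  have h1 : ∑ ε ∈ S, G ε = ∑ e : ZMod p, ∑ ε ∈ S with ε j = e, G ε :=
    (Finset.sum_fiberwise S (fun ε => ε j) G).symm
  have h2 : ∀ e : ZMod p, ∑ ε ∈ S with ε j = e, G ε = ∑ ε ∈ S with ε j = 0, G ε := by
    intro e
    refine Finset.sum_bij' (fun ε _ => fun i => if C i then ε i + (-e) else ε i)
      (fun ε _ => fun i => if C i then ε i + e else ε i) ?_ ?_ ?_ ?_ ?_
    · intro ε hε
      rw [mem_filter] at hε ⊢
      exact ⟨hS ε hε.1 _, by simp [hj, hε.2]⟩
    · intro ε hε
      rw [mem_filter] at hε ⊢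
      exact ⟨hS ε hε.1 _, by simp [hj, hε.2]⟩
    · intro ε hε
      funext i
      by_cases hi : C i <;> simp [hi]
    · intro ε hε
      funext i
      by_cases hi : C i <;> simp [hi]
    · intro ε hε
      rw [mem_filter] at hε
      exact (hG ε hε.1 _).symm
  rw [h1, Finset.sum_congr rfl (fun e _ => h2 e), Finset.sum_const, Finset.card_univ,
    ZMod.card, nsmul_eq_mul, CharP.cast_eq_zero, zero_mul]

theorem exists_ne' (hn : 2 ≤ n) (j : Fin n) : ∃ j1 : Fin n, j1 ≠ j := by
  have : Nontrivial (Fin n) := Fin.nontrivial_iff_two_le.mpr hn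
  exact exists_ne j

theorem al_slot_sh (hn : 2 ≤ n) (j0 j : Fin n) (t : Fin n → Ten p n) (y : Ten p n) (d : ZMod p) :
    al j0 (Function.update t j (sh d y)) = al j0 (Function.update t j y) := by
  obtain ⟨j1, hj1⟩ := exists_ne' hn j
  rw [al_base j0 j1, al_base j0 j1, al_apply, al_apply]
  refine Finset.sum_bij' (fun ε _ => Function.update ε j (ε j + d))
    (fun ε _ => Function.update ε j (ε j - d)) ?_ ?_ ?_ ?_ ?_
  · intro ε hε
    rw [mem_filter] at hε ⊢
    exact ⟨mem_univ _, by rw [Function.update_of_ne hj1]; exact hε.2⟩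
  · intro ε hε
    rw [mem_filter] at hε ⊢
    exact ⟨mem_univ _, by rw [Function.update_of_ne hj1]; exact hε.2⟩
  · intro ε hε
    simp
  · intro ε hε
    simp
  · intro ε hε
    congr 1
    funext k
    by_cases hk : k = j
    · subst hk
      simp [sh_sh]
    · simp [Function.update_of_ne hk]

theorem al_slot_const (hn : 2 ≤ n) (j0 j : Fin n) (t : Fin n → Ten p n) (y : Ten p n)
    (hy : ∀ d : ZMod p, sh d y = y) :
    al j0 (Function.update t j y) = 0 := by
  obtain ⟨j1, hj1⟩ := exists_ne' hn j
  rw [al_base j0 j1, al_apply]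
  refine sum_shift_zero (fun i => i = j) j rfl _ _ ?_ ?_
  · intro ε hε d
    rw [mem_filter] at hε ⊢
    exact ⟨mem_univ _, by simp [hj1, hε.2]⟩
  · intro ε hε d
    congr 1
    funext k
    by_cases hk : k = j
    · subst hk
      simp [hy]
    · simp [hk]

/-- The endpoints `(x, y, …, y)`. -/
def cyc (x y : Vec p n) : ZMod p → Vec p n := fun c => if c = 0 then x else y

theorem det_eq_zero_of_rows (M : Fin n → Vec p n) (i j : Fin n) (hij : i ≠ j) (h : M i = M j) :
    Matrix.det (Matrix.of M) = 0 :=
  Matrix.det_zero_of_row_eq hij h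

/-- If the shifts are not all equal along the cycle, one of the boxes has a repeated row. -/
theorem prod_zero {m : ℕ} [NeZero m] (s : Fin m → Fin n) (x : Fin m → Vec p n)
    (a : Fin n → ZMod p → Vec p n) (ha : ∀ i, a (s i) = cyc (x i) (x (i + 1)))
    (ε : Fin n → ZMod p) (i : Fin m) (hi : s i ≠ s (i + 1)) (hε : ε (s i) ≠ ε (s (i + 1))) :
    ∏ c, Matrix.det (Matrix.of fun j => a j (c + ε j)) = 0 := by
  apply Finset.prod_eq_zero (Finset.mem_univ (-ε (s (i + 1))))
  apply det_eq_zero_of_rows _ (s i) (s (i + 1)) hi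
  rw [ha, ha]
  unfold cyc
  have h1 : -ε (s (i + 1)) + ε (s i) ≠ 0 := by
    intro h
    apply hε
    have := neg_add_eq_zero.mp h
    exact this.symm
  rw [if_neg h1, if_pos (by ring)]

omit [Fact p.Prime] in
theorem chain_const {m : ℕ} [NeZero m] (f : Fin m → ZMod p) (h : ∀ i, f i = f (i + 1)) :
    ∀ i, f i = f 0 := by
  obtain ⟨k, rfl⟩ : ∃ k, m = k + 1 := Nat.exists_eq_succ_of_ne_zero (NeZero.ne m)
  intro i
  induction i using Fin.induction with
  | zero => rfl
  | succ i ih =>
    rw [← ih, h i.castSucc]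
    simp

theorem prod_shift {m : ℕ} [NeZero m] (s : Fin m → Fin n) (hs : Function.Injective s)
    (hm : 2 ≤ m) (x : Fin m → Vec p n)
    (a : Fin n → ZMod p → Vec p n) (ha : ∀ i, a (s i) = cyc (x i) (x (i + 1)))
    (ε : Fin n → ZMod p) (d : ZMod p) :
    ∏ c, Matrix.det (Matrix.of fun j => a j (c + if j ∈ Set.range s then ε j + d else ε j)) =
      ∏ c, Matrix.det (Matrix.of fun j => a j (c + ε j)) := by
  classical
  have hne : ∀ i : Fin m, s i ≠ s (i + 1) := by
    intro i h
    have h1 := hs h
    obtain ⟨k, rfl⟩ : ∃ k, m = k + 2 := ⟨m - 2, by omega⟩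
    have h2 : (1 : Fin (k + 2)) = 0 := by
      have : i + 1 = i + 0 := by rw [add_zero]; exact h1.symm
      exact add_left_cancel this
    exact absurd h2 (by simp)
  by_cases hall : ∀ i, ε (s i) = ε (s (i + 1))
  · have hc : ∀ i, ε (s i) = ε (s 0) := chain_const (fun i => ε (s i)) hall
    set e := ε (s 0) with he
    -- the permutation of the rows
    let π : Equiv.Perm (Fin n) :=
      (Equiv.addRight (1 : Fin m)).viaFintypeEmbedding ⟨s, hs⟩
    have hπ1 : ∀ i, π (s i) = s (i + 1) := fun i =>
      Equiv.Perm.viaFintypeEmbedding_apply_image _ ⟨s, hs⟩ i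
    have hπ2 : ∀ j, j ∉ Set.range s → π j = j := fun j hj =>
      Equiv.Perm.viaFintypeEmbedding_apply_notMem_range _ ⟨s, hs⟩ hj
    -- rows with the identity order
    let Y : ZMod p → Fin n → Vec p n := fun c j =>
      if h : j ∈ Set.range s then x h.choose else a j (c + ε j)
    have hY1 : ∀ c i, Y c (s i) = x i := by
      intro c i
      have h : s i ∈ Set.range s := ⟨i, rfl⟩
      simp only [Y, dif_pos h]
      congr 1
      exact hs h.choose_spec
    have hY2 : ∀ c j, j ∉ Set.range s → Y c j = a j (c + ε j) := by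
      intro c j h
      simp only [Y, dif_neg h]
    let σ : ZMod p := ((Equiv.Perm.sign π : ℤ) : ZMod p)
    have key : ∀ (f : ZMod p), ∀ c, Matrix.det (Matrix.of fun j =>
        a j (c + if j ∈ Set.range s then f else ε j)) =
        (if c + f = 0 then 1 else σ) * Matrix.det (Matrix.of (Y c)) := by
      intro f c
      by_cases hcf : c + f = 0
      · rw [if_pos hcf, one_mul]
        congr 2
        funext j
        by_cases hj : j ∈ Set.range s
        · obtain ⟨i, rfl⟩ := hj
          rw [if_pos ⟨i, rfl⟩, hY1, ha]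
          simp [cyc, hcf]
        · rw [if_neg hj, hY2 c j hj]
      · rw [if_neg hcf]
        have h1 : (Matrix.of fun j => a j (c + if j ∈ Set.range s then f else ε j)) =
            (Matrix.of (Y c)).submatrix π id := by
          ext j k
          simp only [Matrix.of_apply, Matrix.submatrix_apply, id]
          by_cases hj : j ∈ Set.range s
          · obtain ⟨i, rfl⟩ := hj
            rw [if_pos ⟨i, rfl⟩, ha, hπ1, hY1]
            simp [cyc, hcf]
          · rw [if_neg hj, hπ2 j hj, hY2 c j hj]
        rw [h1, Matrix.det_permute]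
    have e1 : ∀ (f : ZMod p), ∏ c, Matrix.det (Matrix.of fun j =>
        a j (c + if j ∈ Set.range s then f else ε j)) =
        σ ^ (p - 1) * ∏ c, Matrix.det (Matrix.of (Y c)) := by
      intro f
      rw [Finset.prod_congr rfl (fun c _ => key f c), Finset.prod_mul_distrib]
      congr 1
      rw [Finset.prod_ite, Finset.prod_const_one, one_mul, Finset.prod_const]
      congr 1
      have : (Finset.univ.filter fun c : ZMod p => ¬ c + f = 0) = Finset.univ.erase (-f) := by
        ext c
        simp [add_eq_zero_iff_eq_neg]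
      rw [this, Finset.card_erase_of_mem (Finset.mem_univ _), Finset.card_univ, ZMod.card]
    have e2 := e1 e
    have e3 := e1 (e + d)
    have e4 : ∀ (c : ZMod p) (j : Fin n), (if j ∈ Set.range s then e else ε j) = ε j := by
      intro c j
      by_cases hj : j ∈ Set.range s
      · obtain ⟨i, rfl⟩ := hj
        rw [if_pos ⟨i, rfl⟩, ← hc i]
      · rw [if_neg hj]
    have e5 : ∀ (c : ZMod p) (j : Fin n), (if j ∈ Set.range s then ε j + d else ε j) =
        (if j ∈ Set.range s then e + d else ε j) := by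
      intro c j
      by_cases hj : j ∈ Set.range s
      · obtain ⟨i, rfl⟩ := hj
        rw [if_pos ⟨i, rfl⟩, if_pos ⟨i, rfl⟩, ← hc i]
      · rw [if_neg hj, if_neg hj]
    have e6 : (∏ c, Matrix.det (Matrix.of fun j => a j (c + if j ∈ Set.range s then ε j + d
        else ε j))) = ∏ c, Matrix.det (Matrix.of fun j =>
        a j (c + if j ∈ Set.range s then e + d else ε j)) :=
      Finset.prod_congr rfl fun c _ => by simp_rw [e5 c]
    have e7 : (∏ c, Matrix.det (Matrix.of fun j => a j (c + ε j))) =
        ∏ c, Matrix.det (Matrix.of fun j =>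
        a j (c + if j ∈ Set.range s then e else ε j)) :=
      Finset.prod_congr rfl fun c _ => by simp_rw [e4 c]
    rw [e6, e7, e2, e3]
  · push Not at hall
    obtain ⟨i, hi⟩ := hall
    rw [prod_zero s x a ha ε i (hne i) hi]
    have := prod_zero s x a ha (fun j => if j ∈ Set.range s then ε j + d else ε j) i (hne i)
      (by simpa using hi)
    exact this

theorem single_eq_pure (k : Idx p n) :
    (Pi.single k 1 : Ten p n) = pure (fun c => Pi.single (k c) 1) := by
  funext k'
  unfold pure
  by_cases h : k' = k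
  · subst h
    simp
  · rw [Pi.single_eq_of_ne h]
    obtain ⟨c, hc⟩ := Function.ne_iff.mp h
    exact (Finset.prod_eq_zero (Finset.mem_univ c) (Pi.single_eq_of_ne hc _)).symm

/-- A multilinear form vanishes if it vanishes when the free slots hold basis tensors. -/
theorem multilinear_rest (f : MultilinearMap (ZMod p) (fun _ : Fin n => Ten p n) (ZMod p))
    (j0 : Fin n) (R : Fin n → Prop) (y : Fin n → Ten p n)
    (h : ∀ t : Fin n → Ten p n, (∀ j, R j → t j = y j) →
      (∀ j, ¬ R j → ∃ k, t j = Pi.single k 1) → f t = 0)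
    (t : Fin n → Ten p n) (ht : ∀ j, R j → t j = y j) : f t = 0 := by
  classical
  let g : Fin n → Idx p n → Ten p n := fun j k =>
    if R j then (if k = (fun _ => j0) then t j else 0) else t j k • Pi.single k 1
  have hg : t = fun j => ∑ k, g j k := by
    funext j
    by_cases hj : R j
    · simp [g, hj]
    · simp only [g, if_neg hj]
      exact (pi_eq_sum_univ' (t j)).trans (by
        refine Finset.sum_congr rfl fun k _ => ?_
        congr 1)
  rw [hg, MultilinearMap.map_sum]
  refine Finset.sum_eq_zero fun r _ => ?_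
  by_cases hr : ∀ j, R j → r j = fun _ => j0
  · have h1 : (fun j => g j (r j)) = fun j => (if R j then 1 else t j (r j)) •
        (if R j then t j else Pi.single (r j) 1 : Ten p n) := by
      funext j
      by_cases hj : R j
      · simp [g, hj, hr j hj]
      · simp only [g, if_neg hj]
    rw [h1, MultilinearMap.map_smul_univ, h, smul_zero]
    · intro j hj
      rw [if_pos hj, ht j hj]
    · intro j hj
      exact ⟨r j, by rw [if_neg hj]⟩
  · push Not at hr
    obtain ⟨j, hj, hj'⟩ := hr
    refine f.map_coord_zero j ?_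
    simp [g, hj, hj']

theorem al_cycle_zero (j0 : Fin n) {m : ℕ} [NeZero m] (hm : 2 ≤ m) (hmn : m < n)
    (s : Fin m → Fin n) (hs : Function.Injective s) (x : Fin m → Vec p n)
    (t : Fin n → Ten p n) (ht : ∀ i, t (s i) = pure (cyc (x i) (x (i + 1)))) : al j0 t = 0 := by
  classical
  obtain ⟨j1, hj1⟩ : ∃ j1, j1 ∉ Set.range s := by
    by_contra hcon
    push Not at hcon
    have : Function.Surjective s := fun j => hcon j
    have := Fintype.card_le_of_surjective s this
    simp at this
    omega
  rw [al_base j0 j1]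
  refine multilinear_rest (al j1) j1 (fun j => j ∈ Set.range s) t ?_ t (fun _ _ => rfl)
  intro t' h1 h2
  have h3 : ∀ j, ∃ a : ZMod p → Vec p n, t' j = pure a ∧
      ∀ i, j = s i → a = cyc (x i) (x (i + 1)) := by
    intro j
    by_cases hj : j ∈ Set.range s
    · obtain ⟨i, rfl⟩ := hj
      refine ⟨cyc (x i) (x (i + 1)), by rw [h1 _ ⟨i, rfl⟩, ht], ?_⟩
      intro i' hi'
      rw [hs hi']
    · obtain ⟨k, hk⟩ := h2 j hj
      refine ⟨fun c => Pi.single (k c) 1, by rw [hk, single_eq_pure], ?_⟩
      intro i hi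
      exact absurd ⟨i, hi.symm⟩ hj
  choose a ha1 ha2 using h3
  rw [al_apply]
  have h4 : ∀ ε : Fin n → ZMod p, omega p n (fun j => sh (ε j) (t' j)) =
      ∏ c, Matrix.det (Matrix.of fun j => a j (c + ε j)) := by
    intro ε
    simp_rw [ha1, sh_pure]
    exact omega_pure (fun j c => a j (c + ε j))
  simp_rw [h4]
  refine sum_shift_zero (fun j => j ∈ Set.range s) (s 0) ⟨0, rfl⟩ _
    (fun ε => ∏ c, Matrix.det (Matrix.of fun j => a j (c + ε j))) ?_ ?_
  · intro ε hε d
    rw [mem_filter] at hε ⊢
    exact ⟨mem_univ _, (if_neg hj1).trans hε.2⟩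
  · intro ε _ d
    exact prod_shift s hs hm x a (fun i => ha2 (s i) i rfl) ε d

theorem al_full_ne_zero [NeZero n] (hn : 2 ≤ n) (j0 : Fin n) :
    al j0 (fun j => pure (cyc (Pi.single j 1 : Vec p n) (Pi.single (j + 1) 1))) ≠ 0 := by
  classical
  rw [al_base j0 0, al_apply]
  have h4 : ∀ ε : Fin n → ZMod p, omega p n (fun j => sh (ε j)
      (pure (cyc (Pi.single j 1 : Vec p n) (Pi.single (j + 1) 1)))) =
      ∏ c, Matrix.det (Matrix.of fun j =>
        (cyc (Pi.single j 1 : Vec p n) (Pi.single (j + 1) 1)) (c + ε j)) := by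
    intro ε
    simp_rw [sh_pure]
    exact omega_pure (fun j c => (cyc (Pi.single j 1 : Vec p n) (Pi.single (j + 1) 1)) (c + ε j))
  simp_rw [h4]
  have hne : ∀ i : Fin n, i ≠ i + 1 := by
    intro i h1
    obtain ⟨k, rfl⟩ : ∃ k, n = k + 2 := ⟨n - 2, by omega⟩
    have h2 : (1 : Fin (k + 2)) = 0 := by
      have : i + 1 = i + 0 := by rw [add_zero]; exact h1.symm
      exact add_left_cancel this
    exact absurd h2 (by simp)
  rw [Finset.sum_eq_single_of_mem (0 : Fin n → ZMod p) (by simp)]
  · rw [Finset.prod_ne_zero_iff]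
    intro c _
    by_cases hc : c = 0
    · subst hc
      have : (Matrix.of fun j : Fin n =>
          (cyc (Pi.single j 1 : Vec p n) (Pi.single (j + 1) 1)) (0 + (0 : Fin n → ZMod p) j)) =
          (1 : Matrix (Fin n) (Fin n) (ZMod p)) := by
        ext i j
        simp [cyc, Matrix.one_apply, Pi.single_apply, eq_comm]
      rw [this, Matrix.det_one]
      exact one_ne_zero
    · have : (Matrix.of fun j : Fin n =>
          (cyc (Pi.single j 1 : Vec p n) (Pi.single (j + 1) 1)) (c + (0 : Fin n → ZMod p) j)) =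
          (1 : Matrix (Fin n) (Fin n) (ZMod p)).submatrix (Equiv.addRight (1 : Fin n)) id := by
        ext i j
        simp [cyc, hc, Matrix.one_apply, Pi.single_apply, eq_comm]
      rw [this, Matrix.det_permute, Matrix.det_one, mul_one]
      rcases Int.units_eq_one_or (Equiv.Perm.sign (Equiv.addRight (1 : Fin n))) with h | h
      · rw [h]; simp
      · rw [h]; simp
  · intro ε hε hε0
    rw [mem_filter] at hε
    by_cases hall : ∀ i, ε i = ε (i + 1)
    · exfalso
      apply hε0
      funext i
      rw [chain_const ε hall i, hε.2]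
      rfl
    · push Not at hall
      obtain ⟨i, hi⟩ := hall
      exact prod_zero (fun i : Fin n => i) (fun j => (Pi.single j 1 : Vec p n))
        (fun j => cyc (Pi.single j 1 : Vec p n) (Pi.single (j + 1) 1)) (fun i => rfl) ε i
        (hne i) hi

end Pool.Agent.Lib.Pae074a
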