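import Pool.Agent.Lib.Pae074a.Slot

set_option autoImplicit false

namespace Pool.Agent.Lib.Pae074a

open Finset

section general

variable {J L A : Type*} [DecidableEq J] [AddCommGroup L] [AddCommGroup A]

/-- Difference operator. -/
def dl (E : J → L) (g : (J → L) → A) : (J → L) → A := fun u => g u - g (u - E)

/-- Iterated difference operator. -/
def dls (Es : List (J → L)) (g : (J → L) → A) : (J → L) → A :=
  Es.foldl (fun g E => dl E g) g

omit [DecidableEq J] in
theorem dl_comm (E E' : J → L) (g : (J → L) → A) : dl E (dl E' g) = dl E' (dl E g) := by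
  funext u
  unfold dl
  rw [show u - E - E' = u - E' - E by abel]
  abel

omit [DecidableEq J] in
theorem dls_dl (Es : List (J → L)) (E : J → L) (g : (J → L) → A) :
    dls Es (dl E g) = dl E (dls Es g) := by
  induction Es generalizing g with
  | nil => rfl
  | cons E' Es ih =>
    show dls Es (dl E' (dl E g)) = dl E (dls Es (dl E' g))
    rw [dl_comm, ih]

omit [DecidableEq J] in
theorem dls_zero (Es : List (J → L)) : dls Es (0 : (J → L) → A) = 0 := by
  induction Es with
  | nil => rfl
  | cons E Es ih =>
    show dls Es (dl E 0) = 0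
    have : dl E (0 : (J → L) → A) = 0 := by
      funext u
      simp [dl]
    rw [this, ih]

theorem dls_eq_zero_of_single [Fintype J] (Es : List (J → L)) (g : (J → L) → A)
    (h : ∀ ss : List J, ss.length = Es.length →
      dls (List.zipWith (fun (E : J → L) j => Pi.single j (E j)) Es ss) g = 0) :
    dls Es g = 0 := by
  induction Es generalizing g with
  | nil => exact h [] rfl
  | cons E Es ih =>
    show dls Es (dl E g) = 0
    apply ih
    intro ss hss
    rw [dls_dl]
    set G := dls (List.zipWith (fun (E : J → L) j => Pi.single j (E j)) Es ss) g with hG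
    have h1 : ∀ j u, G (u - Pi.single j (E j)) = G u := by
      intro j u
      have h2 := h (j :: ss) (by simp [hss])
      have h3 : dls (List.zipWith (fun (E : J → L) j => Pi.single j (E j)) Es ss)
          (dl (Pi.single j (E j)) g) = 0 := h2
      rw [dls_dl, ← hG] at h3
      have h4 := congrFun h3 u
      simp only [dl, Pi.zero_apply] at h4
      exact (sub_eq_zero.mp h4).symm
    have h2 : ∀ (S : Finset J) (u : J → L), G (u - ∑ j ∈ S, Pi.single j (E j)) = G u := by
      intro S
      induction S using Finset.induction_on with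
      | empty => intro u; simp
      | insert a S ha ih2 =>
        intro u
        rw [Finset.sum_insert ha, ← sub_sub, ih2, h1]
    funext u
    have h3 := h2 Finset.univ u
    rw [Finset.univ_sum_single] at h3
    simp [dl, h3]

/-- Successive updates. -/
def upd (ps : List (J × L)) (u : J → L) : J → L :=
  ps.foldl (fun u q => Function.update u q.1 q.2) u

omit [AddCommGroup L] in
theorem upd_cons (q : J × L) (ps : List (J × L)) (u : J → L) :
    upd (q :: ps) u = upd ps (Function.update u q.1 q.2) := rfl

omit [AddCommGroup L] in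
theorem upd_append_single (ps : List (J × L)) (q : J × L) (u : J → L) :
    upd (ps ++ [q]) u = Function.update (upd ps u) q.1 q.2 := by
  simp [upd]

omit [AddCommGroup L] in
theorem upd_of_notMem (ps : List (J × L)) (j : J) (hj : j ∉ ps.map Prod.fst) (u : J → L) :
    upd ps u j = u j := by
  induction ps generalizing u with
  | nil => rfl
  | cons q ps ih =>
    rw [List.map_cons, List.mem_cons, not_or] at hj
    rw [upd_cons, ih hj.2, Function.update_of_ne hj.1]

omit [AddCommGroup L] in
theorem upd_of_mem (ps : List (J × L)) (hps : (ps.map Prod.fst).Nodup) (j : J) (y : L)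
    (hj : (j, y) ∈ ps) (u : J → L) : upd ps u j = y := by
  induction ps generalizing u with
  | nil => simp at hj
  | cons q ps ih =>
    rw [List.map_cons, List.nodup_cons] at hps
    rw [upd_cons]
    rcases List.mem_cons.mp hj with h | h
    · subst h
      rw [upd_of_notMem _ _ hps.1]
      simp
    · exact ih hps.2 h _

theorem upd_sub_of_notMem (ps : List (J × L)) (j : J) (hj : j ∉ ps.map Prod.fst) (u : J → L)
    (y : L) : upd ps (u - Pi.single j y) = upd ps u - Pi.single j y := by
  induction ps generalizing u with
  | nil => rfl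
  | cons q ps ih =>
    rw [List.map_cons, List.mem_cons, not_or] at hj
    rw [upd_cons, upd_cons, ← ih hj.2]
    congr 1
    funext k
    by_cases hk : k = q.1
    · subst hk
      simp [Pi.single_eq_of_ne (Ne.symm hj.1)]
    · simp [Function.update_of_ne hk]

theorem upd_sub_of_mem (ps : List (J × L)) (j : J) (hj : j ∈ ps.map Prod.fst) (u : J → L)
    (y : L) : upd ps (u - Pi.single j y) = upd ps u := by
  induction ps generalizing u with
  | nil => simp at hj
  | cons q ps ih =>
    rw [upd_cons, upd_cons]
    by_cases hq : j = q.1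
    · subst hq
      congr 1
      funext k
      by_cases hk : k = q.1
      · subst hk; simp
      · simp [Function.update_of_ne hk, Pi.single_eq_of_ne hk]
    · rw [List.map_cons, List.mem_cons] at hj
      have hj' := hj.resolve_left hq
      rw [← ih hj' (Function.update u q.1 q.2)]
      congr 1
      funext k
      by_cases hk : k = q.1
      · subst hk
        simp [Pi.single_eq_of_ne (Ne.symm hq)]
      · simp [Function.update_of_ne hk]

theorem dls_single (F : (J → L) → A)
    (hF : ∀ (u : J → L) (j : J) (y : L),
      F (Function.update u j (u j - y)) = F u - F (Function.update u j y))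
    (ps ps0 : List (J × L)) (h0 : (ps0.map Prod.fst).Nodup) :
    dls (ps.map fun q => Pi.single q.1 q.2) (fun u => F (upd ps0 u)) = 0 ∨
    (((ps0 ++ ps).map Prod.fst).Nodup ∧
      dls (ps.map fun q => Pi.single q.1 q.2) (fun u => F (upd ps0 u)) =
        fun u => F (upd (ps0 ++ ps) u)) := by
  induction ps generalizing ps0 with
  | nil => right; simpa using ⟨h0, rfl⟩
  | cons q ps ih =>
    by_cases hq : q.1 ∈ ps0.map Prod.fst
    · left
      show dls (ps.map fun q => Pi.single q.1 q.2) (dl (Pi.single q.1 q.2) _) = 0
      have : dl (Pi.single q.1 q.2) (fun u => F (upd ps0 u)) = 0 := by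
        funext u
        simp [dl, upd_sub_of_mem ps0 q.1 hq]
      rw [this, dls_zero]
    · have h1 : dl (Pi.single q.1 q.2) (fun u => F (upd ps0 u)) =
          fun u => F (upd (ps0 ++ [q]) u) := by
        funext u
        simp only [dl]
        rw [upd_append_single, upd_sub_of_notMem ps0 q.1 hq]
        have h2 : upd ps0 u - Pi.single q.1 q.2 =
            Function.update (upd ps0 u) q.1 (upd ps0 u q.1 - q.2) := by
          funext k
          by_cases hk : k = q.1
          · subst hk; simp
          · simp [Function.update_of_ne hk, Pi.single_eq_of_ne hk]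
        rw [h2, hF]
        abel
      have h3 : ((ps0 ++ [q]).map Prod.fst).Nodup := by
        rw [List.map_append, List.nodup_append]
        refine ⟨h0, by simp, ?_⟩
        intro a ha b hb hab
        simp only [List.map_cons, List.map_nil, List.mem_singleton] at hb
        subst hb
        subst hab
        exact hq ha
      have h4 := ih (ps0 ++ [q]) h3
      rw [List.append_assoc] at h4
      show dls (ps.map fun q => Pi.single q.1 q.2) (dl (Pi.single q.1 q.2) _) = 0 ∨ _ ∧
        dls (ps.map fun q => Pi.single q.1 q.2) (dl (Pi.single q.1 q.2) _) = _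
      rw [h1]
      exact h4

theorem dls_single_nodup (F : (J → L) → A)
    (hF : ∀ (u : J → L) (j : J) (y : L),
      F (Function.update u j (u j - y)) = F u - F (Function.update u j y))
    (ps ps0 : List (J × L)) (h0 : ((ps0 ++ ps).map Prod.fst).Nodup) :
    dls (ps.map fun q => Pi.single q.1 q.2) (fun u => F (upd ps0 u)) =
        fun u => F (upd (ps0 ++ ps) u) := by
  induction ps generalizing ps0 with
  | nil => simp [dls]
  | cons q ps ih =>
    have hq : q.1 ∉ ps0.map Prod.fst := by
      rw [List.map_append, List.nodup_append] at h0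
      intro h
      exact h0.2.2 _ h _ (by simp) rfl
    have h1 : dl (Pi.single q.1 q.2) (fun u => F (upd ps0 u)) =
        fun u => F (upd (ps0 ++ [q]) u) := by
      funext u
      simp only [dl]
      rw [upd_append_single, upd_sub_of_notMem ps0 q.1 hq]
      have h2 : upd ps0 u - Pi.single q.1 q.2 =
          Function.update (upd ps0 u) q.1 (upd ps0 u q.1 - q.2) := by
        funext k
        by_cases hk : k = q.1
        · subst hk; simp
        · simp [Function.update_of_ne hk, Pi.single_eq_of_ne hk]
      rw [h2, hF]
      abel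
    have h4 := ih (ps0 ++ [q]) (by rw [List.append_assoc]; exact h0)
    rw [List.append_assoc] at h4
    show dls (ps.map fun q => Pi.single q.1 q.2) (dl (Pi.single q.1 q.2) _) = _
    rw [h1]
    exact h4

end general

section main

variable {p n : ℕ} [Fact p.Prime]

/-- The slots: `n` main slots and two extra ones. -/
abbrev Slots (n : ℕ) := Fin n ⊕ Bool

/-- The witness function. -/
noncomputable def wit (κ : Idx p n → ZMod p) (j0 : Fin n) (u : Slots n → Fn p n) : ZMod p :=
  al j0 (fun j => rho κ (u (Sum.inl j))) * (∑ q, u (Sum.inr false) q) *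
    ∑ q, u (Sum.inr true) q * q j0 ^ (p - 1)

theorem wit_update (κ : Idx p n → ZMod p) (j0 : Fin n) (u : Slots n → Fn p n) (i : Slots n)
    (y : Fn p n) :
    wit κ j0 (Function.update u i (u i - y)) = wit κ j0 u - wit κ j0 (Function.update u i y) := by
  rcases i with j | b
  · have h : ∀ z : Fn p n, (fun j' => rho κ (Function.update u (Sum.inl j) z (Sum.inl j'))) =
        Function.update (fun j' => rho κ (u (Sum.inl j'))) j (rho κ z) := by
      intro z
      funext j'
      by_cases hj : j' = j
      · subst hj; simp
      · rw [Function.update_of_ne hj, Function.update_of_ne (by simpa using hj)]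
    unfold wit
    rw [h, h, map_sub, MultilinearMap.map_update_sub]
    simp only [ne_eq, reduceCtorEq, not_false_eq_true, Function.update_of_ne]
    rw [Function.update_eq_self]
    ring
  · have h : ∀ z : Fn p n, (fun j' => rho κ (Function.update u (Sum.inr b) z (Sum.inl j'))) =
        (fun j' => rho κ (u (Sum.inl j'))) := by
      intro z
      funext j'
      simp
    unfold wit
    rw [h, h]
    cases b
    · simp [Finset.sum_sub_distrib]
      ring
    · simp [Finset.sum_sub_distrib, sub_mul]
      ring

theorem extra_false (x y : Vec p n) (w : Fn p n) : ∑ q, el x y w q = 0 := by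
  have := pair_el x y w (fun _ => 1)
  simpa using this

theorem sum_affine_pow (a b : ZMod p) : ∑ t : ZMod p, (a + t * b) ^ (p - 1) =
    -b ^ (p - 1) := by
  have hp : 2 ≤ p := (Fact.out : p.Prime).two_le
  simp_rw [add_pow, mul_pow]
  rw [Finset.sum_comm]
  rw [Finset.sum_eq_single (0 : ℕ)]
  · simp [← Finset.sum_mul, sum_pow_last]
  · intro m hm hm0
    rw [Finset.mem_range] at hm
    have h := sum_pow_zero (p := p) (p - 1 - m) (by omega)
    have : ∑ t : ZMod p, a ^ m * (t ^ (p - 1 - m) * b ^ (p - 1 - m)) *
        ((p - 1).choose m : ZMod p) =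
        a ^ m * b ^ (p - 1 - m) * ((p - 1).choose m : ZMod p) * ∑ t : ZMod p, t ^ (p - 1 - m) := by
      rw [Finset.mul_sum]
      exact Finset.sum_congr rfl fun t _ => by ring
    rw [this, h, mul_zero]
  · intro h
    simp at h

theorem extra_true (j0 : Fin n) (x y : Vec p n) (w : Fn p n) :
    ∑ q, el x y w q * q j0 ^ (p - 1) = 0 := by
  rw [pair_el x y w (fun q => q j0 ^ (p - 1))]
  refine Finset.sum_eq_zero fun q _ => ?_
  rw [Finset.sum_sub_distrib]
  have h1 : ∀ t : ZMod p, (q + t • y + x) j0 = (q j0 + x j0) + t * y j0 := by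
    intro t
    simp only [Pi.add_apply, Pi.smul_apply, smul_eq_mul]
    ring
  have h2 : ∀ t : ZMod p, (q + t • y) j0 = q j0 + t * y j0 := by
    intro t
    simp only [Pi.add_apply, Pi.smul_apply, smul_eq_mul]
  simp_rw [h1, h2]
  rw [sum_affine_pow, sum_affine_pow]
  simp

/-- The slot functional of the main form. -/
noncomputable def slotL (j0 : Fin n) (t : Fin n → Ten p n) (j : Fin n) :
    Ten p n →ₗ[ZMod p] ZMod p := (al j0).toLinearMap t j

theorem slot_al (hn : 2 ≤ n) (κ : Idx p n → ZMod p)
    (hκ : ∀ k : Idx p n, (∃ c c', k c ≠ k c') → ∑ d : ZMod p, κ (fun c => k (c + d)) = 1)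
    (j0 : Fin n) (t : Fin n → Ten p n) (j : Fin n) (x y : Vec p n) (w : Fn p n) :
    al j0 (Function.update t j (rho κ (el x y w))) =
      -(∑ q, w q) * al j0 (Function.update t j (pure (cyc x y))) := by
  refine slot_eval κ hκ ((al j0).toLinearMap t j) ?_ ?_ x y w
  · intro d y
    exact al_slot_sh hn j0 j t y d
  · intro k hk
    refine al_slot_const hn j0 j t (Pi.single k 1) ?_
    intro d
    funext k'
    rw [sh_apply, Pi.single_apply, Pi.single_apply]
    congr 1
    apply propext
    constructor
    · intro h
      funext c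
      have := congrFun h (c + d)
      simp only [add_sub_cancel_right] at this
      rw [this]
      exact hk _ _
    · rintro rfl
      funext c
      exact hk _ _

theorem al_el_zero (hn : 2 ≤ n) (κ : Idx p n → ZMod p)
    (hκ : ∀ k : Idx p n, (∃ c c', k c ≠ k c') → ∑ d : ZMod p, κ (fun c => k (c + d)) = 1)
    (j0 : Fin n) {m : ℕ} [NeZero m] (hm : 2 ≤ m) (hmn : m < n)
    (s : Fin m → Fin n) (hs : Function.Injective s) (x : Fin m → Vec p n) (w : Fin m → Fn p n)
    (T : Finset (Fin m))
    (t : Fin n → Ten p n) (ht1 : ∀ i, i ∉ T → t (s i) = pure (cyc (x i) (x (i + 1))))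
    (ht2 : ∀ i ∈ T, t (s i) = rho κ (el (x i) (x (i + 1)) (w i))) : al j0 t = 0 := by
  classical
  induction T using Finset.induction_on generalizing t with
  | empty => exact al_cycle_zero j0 hm hmn s hs x t (fun i => ht1 i (by simp))
  | insert i T hi ih =>
    have h1 : t = Function.update t (s i) (rho κ (el (x i) (x (i + 1)) (w i))) := by
      rw [← ht2 i (by simp), Function.update_eq_self]
    rw [h1, slot_al hn κ hκ, ih, mul_zero]
    · intro i' hi'
      by_cases h : i' = i
      · subst h; simp
      · rw [Function.update_of_ne (fun h' => h (hs h'))]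
        exact ht1 i' (by simp [h, hi'])
    · intro i' hi'
      have h : i' ≠ i := fun h => hi (h ▸ hi')
      rw [Function.update_of_ne (fun h' => h (hs h'))]
      exact ht2 i' (by simp [hi'])

theorem al_el_ne_zero [NeZero n] (hn : 2 ≤ n) (κ : Idx p n → ZMod p)
    (hκ : ∀ k : Idx p n, (∃ c c', k c ≠ k c') → ∑ d : ZMod p, κ (fun c => k (c + d)) = 1)
    (j0 : Fin n) (w : Fin n → Fn p n) (hw : ∀ j, ∑ q, w j q ≠ 0) (T : Finset (Fin n))
    (t : Fin n → Ten p n)
    (ht1 : ∀ i, i ∉ T → t i = pure (cyc (Pi.single i 1) (Pi.single (i + 1) 1)))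
    (ht2 : ∀ i ∈ T, t i = rho κ (el (Pi.single i 1) (Pi.single (i + 1) 1) (w i))) :
    al j0 t ≠ 0 := by
  classical
  induction T using Finset.induction_on generalizing t with
  | empty =>
    have : t = fun j => pure (cyc (Pi.single j 1 : Vec p n) (Pi.single (j + 1) 1)) := by
      funext j
      exact ht1 j (by simp)
    rw [this]
    exact al_full_ne_zero hn j0
  | insert i T hi ih =>
    have h1 : t = Function.update t i (rho κ (el (Pi.single i 1) (Pi.single (i + 1) 1) (w i))) := by
      rw [← ht2 i (by simp), Function.update_eq_self]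
    rw [h1, slot_al hn κ hκ]
    refine mul_ne_zero (neg_ne_zero.mpr (hw i)) (ih _ ?_ ?_)
    · intro i' hi'
      by_cases h : i' = i
      · subst h; simp
      · rw [Function.update_of_ne h]
        exact ht1 i' (by simp [h, hi'])
    · intro i' hi'
      have h : i' ≠ i := fun h => hi (h ▸ hi')
      rw [Function.update_of_ne h]
      exact ht2 i' (by simp [hi'])

/-- The list of translations appearing in the law of length `m`. -/
def els (m : ℕ) (x : ℕ → Vec p n) (w : ℕ → Slots n → Fn p n) : List (Slots n → Fn p n) :=
  (List.range m).map fun i => fun j => el (x i) (x ((i + 1) % m)) (w i j)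

theorem wit_vanish (hn : 2 ≤ n) (κ : Idx p n → ZMod p)
    (hκ : ∀ k : Idx p n, (∃ c c', k c ≠ k c') → ∑ d : ZMod p, κ (fun c => k (c + d)) = 1)
    (j0 : Fin n) (m : ℕ) (hm : 2 ≤ m) (hmn : m ≠ n) (x : ℕ → Vec p n)
    (w : ℕ → Slots n → Fn p n) : dls (els m x w) (wit κ j0) = 0 := by
  classical
  have : NeZero m := ⟨by omega⟩
  apply dls_eq_zero_of_single
  intro ss hss
  have hlen : (els m x w).length = m := by simp [els]
  rw [hlen] at hss
  set ps : List (Slots n × Fn p n) := List.zipWith (fun (E : Slots n → Fn p n) j => (j, E j))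
    (els m x w) ss with hps
  have h1 : List.zipWith (fun (E : Slots n → Fn p n) j => Pi.single j (E j)) (els m x w) ss =
      ps.map fun q => Pi.single q.1 q.2 := by
    rw [hps, List.map_zipWith]
  rw [h1]
  have hfst : ps.map Prod.fst = ss := by
    rw [hps, List.map_zipWith]
    apply List.ext_getElem
    · simp [hss, hlen]
    · intro i h2 h3
      simp
  rcases dls_single (wit κ j0) (wit_update κ j0) ps [] (by simp) with h | ⟨hnd, h⟩
  · exact h
  · rw [show dls (ps.map fun q => Pi.single q.1 q.2) (wit κ j0) =
      dls (ps.map fun q => Pi.single q.1 q.2) (fun u => wit κ j0 (upd [] u)) from rfl, h]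
    rw [List.nil_append] at hnd ⊢
    rw [hfst] at hnd
    funext u
    show wit κ j0 (upd ps u) = 0
    have hval : ∀ i : Fin m, upd ps u (ss[i]'(by rw [hss]; exact i.2)) =
        el (x i) (x ((i + 1 : ℕ) % m)) (w i (ss[i]'(by rw [hss]; exact i.2))) := by
      intro i
      apply upd_of_mem ps (by rw [hfst]; exact hnd)
      rw [hps]
      have : (ss[i]'(by rw [hss]; exact i.2), el (x i) (x ((i + 1 : ℕ) % m))
          (w i (ss[i]'(by rw [hss]; exact i.2)))) =
          (List.zipWith (fun (E : Slots n → Fn p n) j => (j, E j)) (els m x w) ss)[(i : ℕ)]'(by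
            rw [List.length_zipWith, hss, hlen]; simp) := by
        simp [els]
      rw [this]
      exact List.getElem_mem _
    by_cases hb : ∃ (i : Fin m) (b : Bool), ss[i]'(by rw [hss]; exact i.2) = Sum.inr b
    · obtain ⟨i, b, hib⟩ := hb
      have hv := hval i
      rw [hib] at hv
      unfold wit
      cases b
      · rw [hv, extra_false]
        ring
      · rw [hv, extra_true]
        ring
    · push Not at hb
      have hs' : ∀ i : Fin m, ∃ j : Fin n, ss[i]'(by rw [hss]; exact i.2) = Sum.inl j := by
        intro i
        rcases hc : ss[i]'(by rw [hss]; exact i.2) with j | b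
        · exact ⟨j, rfl⟩
        · exact absurd hc (hb i b)
      choose s hs using hs'
      have hinj : Function.Injective s := by
        intro i i' hii
        have h2 : ss[i]'(by rw [hss]; exact i.2) = ss[i']'(by rw [hss]; exact i'.2) := by
          rw [hs, hs, hii]
        have h3 := (List.Nodup.getElem_inj_iff hnd).mp h2
        exact Fin.ext h3
      have hmn' : m < n := by
        have := Fintype.card_le_of_injective s hinj
        simp at this
        omega
      have hz : al j0 (fun j => rho κ (upd ps u (Sum.inl j))) = 0 := by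
        refine al_el_zero hn κ hκ j0 hm hmn' s hinj (fun i => x i) (fun i => w i (Sum.inl (s i)))
          Finset.univ _ (by simp) ?_
        intro i _
        have hv := hval i
        rw [hs i] at hv
        show rho κ (upd ps u (Sum.inl (s i))) = _
        rw [hv]
        congr 3
        show ((i + 1 : ℕ) % m) = ((i + 1 : Fin m) : ℕ)
        rw [Fin.val_add, Fin.val_one']
        simp
      unfold wit
      rw [hz]
      ring

theorem extra_nu (j0 : Fin n) (w : Fn p n) :
    ∑ q, nu (Pi.single j0 1) w q * q j0 ^ (p - 1) = -∑ q, w q := by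
  rw [pair_nu (Pi.single j0 1) w (fun q => q j0 ^ (p - 1)), ← Finset.sum_neg_distrib]
  refine Finset.sum_congr rfl fun q _ => ?_
  have h2 : ∀ t : ZMod p, (q + t • (Pi.single j0 1 : Vec p n)) j0 = q j0 + t * 1 := by
    intro t
    simp
  simp_rw [h2]
  rw [sum_affine_pow]
  simp

theorem wit_ne_zero [NeZero n] (hn : 2 ≤ n) (κ : Idx p n → ZMod p)
    (hκ : ∀ k : Idx p n, (∃ c c', k c ≠ k c') → ∑ d : ZMod p, κ (fun c => k (c + d)) = 1)
    (j0 : Fin n) (δ : Fn p n) (hδ : ∑ q, δ q = 1) (u : Slots n → Fn p n)
    (h1 : ∀ i : Fin n, u (Sum.inl i) = el (Pi.single i 1) (Pi.single (i + 1) 1) δ)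
    (h2 : u (Sum.inr false) = δ) (h3 : u (Sum.inr true) = nu (Pi.single j0 1) δ) :
    wit κ j0 u ≠ 0 := by
  unfold wit
  rw [h2, h3, extra_nu, hδ, mul_one]
  refine mul_ne_zero ?_ (by simp)
  refine al_el_ne_zero hn κ hκ j0 (fun _ => δ) (fun _ => by rw [hδ]; exact one_ne_zero)
    Finset.univ _ (by simp) ?_
  intro i _
  show rho κ (u (Sum.inl i)) = _
  rw [h1]

end main

end Pool.Agent.Lib.Pae074a
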