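import Pool.Agent.Lib.Pae074a.Diff

set_option autoImplicit false

namespace Pool.Agent.Lib.Pae074a

open Finset
open scoped commutatorElement

/-- Left normed commutator used for the laws. -/
def lawVal {G : Type*} [Group G] (p m : ℕ) (a b c : G) (x : ℕ → G) : G :=
  (List.range m).foldl (fun v i => ⁅v, ⁅x i, x ((i + 1) % m) ^ p⁆⁆) ⁅⁅a, b⁆, c ^ p⁆

theorem map_lawVal {G H : Type*} [Group G] [Group H] (φ : G →* H) (p m : ℕ) (a b c : G)
    (x : ℕ → G) : φ (lawVal p m a b c x) = lawVal p m (φ a) (φ b) (φ c) (fun i => φ (x i)) := by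
  unfold lawVal
  generalize List.range m = l
  have h : ∀ v : G, φ (l.foldl (fun v i => ⁅v, ⁅x i, x ((i + 1) % m) ^ p⁆⁆) v) =
      l.foldl (fun v i => ⁅v, ⁅φ (x i), φ (x ((i + 1) % m)) ^ p⁆⁆) (φ v) := by
    induction l with
    | nil => intro v; rfl
    | cons i l ih =>
      intro v
      rw [List.foldl_cons, List.foldl_cons, ih]
      simp only [map_commutatorElement, map_pow]
  rw [h]
  simp only [map_commutatorElement, map_pow]

section

variable {p n : ℕ} [Fact p.Prime]

/-- Translation on all slots. -/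
def trs (q : Vec p n) (u : Slots n → Fn p n) : Slots n → Fn p n := fun j => tr q (u j)

theorem tr_tr (q q' : Vec p n) (u : Fn p n) : tr q (tr q' u) = tr (q + q') u := by
  funext s
  unfold tr
  congr 1
  abel

theorem tr_zero (u : Fn p n) : tr 0 u = u := by
  funext s
  simp [tr]

theorem tr_add (q : Vec p n) (u v : Fn p n) : tr q (u + v) = tr q u + tr q v := rfl

theorem tr_sub (q : Vec p n) (u v : Fn p n) : tr q (u - v) = tr q u - tr q v := rfl

theorem tr_neg (q : Vec p n) (u : Fn p n) : tr q (-u) = -tr q u := rfl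

theorem trs_trs (q q' : Vec p n) (u : Slots n → Fn p n) : trs q (trs q' u) = trs (q + q') u := by
  funext j
  exact tr_tr q q' (u j)

theorem trs_zero (u : Slots n → Fn p n) : trs 0 u = u := by
  funext j
  exact tr_zero (u j)

theorem trs_add (q : Vec p n) (u v : Slots n → Fn p n) : trs q (u + v) = trs q u + trs q v := rfl

theorem trs_sub (q : Vec p n) (u v : Slots n → Fn p n) : trs q (u - v) = trs q u - trs q v := rfl

theorem trs_neg (q : Vec p n) (u : Slots n → Fn p n) : trs q (-u) = -trs q u := rfl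

/-- The group of triples `(f, v, q)`. -/
@[ext] structure Big (p n : ℕ) where
  /-- function part -/
  f : (Slots n → Fn p n) → ZMod p
  /-- translation part -/
  v : Slots n → Fn p n
  /-- vector part -/
  q : Vec p n

instance : Mul (Big p n) := ⟨fun x y =>
  ⟨fun u => x.f (trs y.q u + y.v) + y.f u, x.v + trs x.q y.v, x.q + y.q⟩⟩

instance : One (Big p n) := ⟨⟨0, 0, 0⟩⟩

instance : Inv (Big p n) := ⟨fun x =>
  ⟨fun u => -x.f (trs (-x.q) u + -trs (-x.q) x.v), -trs (-x.q) x.v, -x.q⟩⟩

theorem mul_f (x y : Big p n) : (x * y).f = fun u => x.f (trs y.q u + y.v) + y.f u := rfl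
theorem mul_v (x y : Big p n) : (x * y).v = x.v + trs x.q y.v := rfl
theorem mul_q (x y : Big p n) : (x * y).q = x.q + y.q := rfl
theorem one_f : (1 : Big p n).f = 0 := rfl
theorem one_v : (1 : Big p n).v = 0 := rfl
theorem one_q : (1 : Big p n).q = 0 := rfl
theorem inv_f (x : Big p n) : (x⁻¹).f = fun u => -x.f (trs (-x.q) u + -trs (-x.q) x.v) := rfl
theorem inv_v (x : Big p n) : (x⁻¹).v = -trs (-x.q) x.v := rfl
theorem inv_q (x : Big p n) : (x⁻¹).q = -x.q := rfl

instance : Group (Big p n) := Group.ofLeftAxioms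
  (by
    intro x y z
    ext1
    · funext u
      simp only [mul_f, mul_v, mul_q, trs_add, trs_trs]
      have h : trs (y.q + z.q) u + trs y.q z.v + y.v =
          trs (y.q + z.q) u + (y.v + trs y.q z.v) := by
        rw [add_assoc, add_comm (trs y.q z.v)]
      rw [h, add_assoc]
    · simp only [mul_v, mul_q, trs_add, trs_trs, add_assoc]
    · simp only [mul_q, add_assoc])
  (by
    intro x
    ext1
    · funext u
      simp [mul_f, one_f]
    · simp [mul_v, one_v, one_q, trs_zero]
    · simp [mul_q, one_q])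
  (by
    intro x
    ext1
    · funext u
      simp only [mul_f, inv_f, trs_add, trs_trs, one_f, Pi.zero_apply]
      simp [trs_zero]
    · simp [mul_v, inv_v, inv_q, one_v]
    · simp [mul_q, inv_q, one_q])

/-- The elements with only a function part. -/
def io (g : (Slots n → Fn p n) → ZMod p) : Big p n := ⟨g, 0, 0⟩

theorem comm_io (g : (Slots n → Fn p n) → ZMod p) (e : Big p n) (he : e.q = 0) :
    ⁅io g, e⁆ = io (dl e.v g) := by
  have h : io g * e = io (dl e.v g) * (e * io g) := by
    ext1
    · funext u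
      simp only [mul_f, io, mul_v, mul_q, he, trs_zero, add_zero, dl]
      simp
    · simp [mul_v, io, he, trs_zero]
    · simp [mul_q, io, he]
  rw [commutatorElement_def, h]
  group

theorem comm_q (x y : Big p n) : (⁅x, y⁆).q = 0 := by
  rw [commutatorElement_def, mul_q, mul_q, mul_q, inv_q, inv_q]
  abel

theorem pow_q (x : Big p n) (k : ℕ) : (x ^ k).q = k • x.q := by
  induction k with
  | zero => simp [one_q]
  | succ k ih => rw [pow_succ, mul_q, ih, succ_nsmul]

theorem pow_p_q (x : Big p n) : (x ^ p).q = 0 := by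
  rw [pow_q]
  funext i
  simp

theorem pow_v (x : Big p n) (k : ℕ) :
    (x ^ k).v = ∑ i ∈ Finset.range k, trs (i • x.q) x.v := by
  induction k with
  | zero => simp [one_v]
  | succ k ih => rw [pow_succ, mul_v, ih, pow_q, Finset.sum_range_succ]

theorem sum_range_eq {A : Type*} [AddCommMonoid A] (f : ZMod p → A) :
    ∑ i ∈ Finset.range p, f (i : ZMod p) = ∑ t : ZMod p, f t := by
  refine Finset.sum_bij' (fun i _ => (i : ZMod p)) (fun t _ => t.val) ?_ ?_ ?_ ?_ ?_
  · intro i _; simp
  · intro t _; simpa using ZMod.val_lt t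
  · intro i hi
    simp only [Finset.mem_range] at hi
    exact ZMod.val_cast_of_lt hi
  · intro t _
    simp
  · intro i _; rfl

theorem pow_p_v (x : Big p n) : (x ^ p).v = fun j => nu x.q (x.v j) := by
  rw [pow_v]
  funext j s
  rw [Finset.sum_apply, Finset.sum_apply]
  unfold nu
  rw [← sum_range_eq (fun t => x.v j (s - t • x.q))]
  refine Finset.sum_congr rfl fun i _ => ?_
  show x.v j (s - i • x.q) = _
  congr 2
  funext k
  simp

theorem comm_v (x e : Big p n) (he : e.q = 0) : (⁅x, e⁆).v = trs x.q e.v - e.v := by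
  have h : ⁅x, e⁆ * (e * x) = x * e := by rw [commutatorElement_def]; group
  have h1 := congrArg Big.v h
  rw [mul_v, comm_q, trs_zero, mul_v, mul_v, he, trs_zero] at h1
  have h2 : (⁅x, e⁆).v = x.v + trs x.q e.v - (e.v + x.v) := eq_sub_of_add_eq h1
  rw [h2]
  abel

theorem comm_pow_v (x y : Big p n) : (⁅x, y ^ p⁆).v = fun j => el x.q y.q (y.v j) := by
  rw [comm_v x (y ^ p) (pow_p_q y), pow_p_v]
  rfl

theorem foldl_io (e : ℕ → Big p n) (he : ∀ i, (e i).q = 0) (l : List ℕ)
    (g : (Slots n → Fn p n) → ZMod p) :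
    l.foldl (fun v i => ⁅v, e i⁆) (io g) = io (dls (l.map fun i => (e i).v) g) := by
  induction l generalizing g with
  | nil => rfl
  | cons i l ih =>
    rw [List.foldl_cons, comm_io g (e i) (he i), ih]
    rfl

theorem lawVal_big (m : ℕ) (a b c : Big p n) (x : ℕ → Big p n) :
    lawVal p m a b c x = io (dls (els m (fun i => (x i).q)
      (fun i => (x ((i + 1) % m)).v)) (⁅⁅a, b⁆, c ^ p⁆).f) := by
  have h1 : ⁅⁅a, b⁆, c ^ p⁆ = io (⁅⁅a, b⁆, c ^ p⁆).f := by
    ext1
    · rfl
    · rw [comm_v _ _ (pow_p_q c), comm_q, trs_zero, sub_self]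
      rfl
    · rw [comm_q]
      rfl
  unfold lawVal
  rw [h1, foldl_io (fun i => ⁅x i, x ((i + 1) % m) ^ p⁆) (fun i => comm_q _ _)]
  congr 2
  unfold els
  refine List.map_congr_left fun i _ => ?_
  exact comm_pow_v _ _

/-- The functions killed by all laws of length different from `n`. -/
def InM (g : (Slots n → Fn p n) → ZMod p) : Prop :=
  ∀ m : ℕ, 2 ≤ m → m ≠ n → ∀ (x : ℕ → Vec p n) (w : ℕ → Slots n → Fn p n),
    dls (els m x w) g = 0

theorem dls_add {J L A : Type*} [AddCommGroup L] [AddCommGroup A] (Es : List (J → L))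
    (g h : (J → L) → A) : dls Es (g + h) = dls Es g + dls Es h := by
  induction Es generalizing g h with
  | nil => rfl
  | cons E Es ih =>
    show dls Es (dl E (g + h)) = dls Es (dl E g) + dls Es (dl E h)
    rw [← ih]
    congr 1
    funext u
    simp only [dl, Pi.add_apply]
    abel

theorem dls_neg {J L A : Type*} [AddCommGroup L] [AddCommGroup A] (Es : List (J → L))
    (g : (J → L) → A) : dls Es (-g) = -dls Es g := by
  induction Es generalizing g with
  | nil => rfl
  | cons E Es ih =>
    show dls Es (dl E (-g)) = -dls Es (dl E g)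
    rw [← ih]
    congr 1
    funext u
    simp only [dl, Pi.neg_apply]
    abel

theorem tr_nu (q y : Vec p n) (w : Fn p n) : tr q (nu y w) = nu y (tr q w) := by
  funext s
  unfold tr nu
  refine Finset.sum_congr rfl fun t _ => ?_
  congr 1
  abel

theorem tr_el (q x y : Vec p n) (w : Fn p n) : tr q (el x y w) = el x y (tr q w) := by
  unfold el
  rw [tr_sub, tr_tr, add_comm q x, ← tr_tr, tr_nu]

theorem dls_comp (Es : List (Slots n → Fn p n)) (g : (Slots n → Fn p n) → ZMod p) (q : Vec p n)
    (v : Slots n → Fn p n) :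
    dls Es (fun u => g (trs q u + v)) = fun u => dls (Es.map (trs q)) g (trs q u + v) := by
  induction Es generalizing g with
  | nil => rfl
  | cons E Es ih =>
    show dls Es (dl E (fun u => g (trs q u + v))) = _
    have : dl E (fun u => g (trs q u + v)) = fun u => dl (trs q E) g (trs q u + v) := by
      funext u
      simp only [dl]
      rw [trs_sub]
      congr 2
      abel
    rw [this, ih]
    rfl

theorem InM.comp {g : (Slots n → Fn p n) → ZMod p} (hg : InM g) (q : Vec p n)
    (v : Slots n → Fn p n) : InM (fun u => g (trs q u + v)) := by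
  intro m hm hmn x w
  rw [dls_comp]
  have : (els m x w).map (trs q) = els m x (fun i => trs q (w i)) := by
    unfold els
    rw [List.map_map]
    refine List.map_congr_left fun i _ => ?_
    funext j
    exact tr_el q _ _ _
  rw [this, hg m hm hmn]
  rfl

theorem InM.add {g h : (Slots n → Fn p n) → ZMod p} (hg : InM g) (hh : InM h) :
    InM (g + h) := by
  intro m hm hmn x w
  rw [dls_add, hg m hm hmn, hh m hm hmn, add_zero]

theorem InM.neg {g : (Slots n → Fn p n) → ZMod p} (hg : InM g) : InM (-g) := by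
  intro m hm hmn x w
  rw [dls_neg, hg m hm hmn, neg_zero]

theorem InM.zero : InM (0 : (Slots n → Fn p n) → ZMod p) := by
  intro m hm hmn x w
  exact dls_zero _

/-- The test group. -/
def Gn (p n : ℕ) [Fact p.Prime] : Subgroup (Big p n) where
  carrier := {x | InM x.f}
  mul_mem' := by
    intro x y hx hy
    exact (hx.comp y.q y.v).add hy
  one_mem' := InM.zero
  inv_mem' := by
    intro x hx
    exact (hx.comp (-x.q) (-trs (-x.q) x.v)).neg

theorem gn_law (m : ℕ) (hm : 2 ≤ m) (hmn : m ≠ n) (a b c : Gn p n) (x : ℕ → Gn p n) :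
    lawVal p m a b c x = 1 := by
  apply Subtype.ext
  have h := map_lawVal (Gn p n).subtype p m a b c x
  simp only [Subgroup.coe_subtype] at h
  rw [h, lawVal_big]
  have h2 : InM (⁅⁅(a : Big p n), (b : Big p n)⁆, (c : Big p n) ^ p⁆).f :=
    (⁅⁅a, b⁆, c ^ p⁆ : Gn p n).2
  rw [h2 m hm hmn]
  rfl

theorem el_zero (x y : Vec p n) : el x y (0 : Fn p n) = 0 := by
  funext s
  simp [el, tr, nu]

theorem nu_zero (y : Vec p n) : nu y (0 : Fn p n) = 0 := by
  funext s
  simp [nu]

theorem gn_not_law (hn : 2 ≤ n) :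
    ∃ (a b c : Gn p n) (x : ℕ → Gn p n), lawVal p n a b c x ≠ 1 := by
  classical
  have : NeZero n := ⟨by omega⟩
  obtain ⟨κ, hκ⟩ := exists_kappa p n
  let j0 : Fin n := 0
  let δ : Fn p n := Pi.single 0 1
  have hδ : ∑ q, δ q = 1 := by simp [δ]
  -- the elements
  let a : Gn p n := ⟨io (wit κ j0), fun m hm hmn x w => wit_vanish hn κ hκ j0 m hm hmn x w⟩
  let b : Gn p n := ⟨⟨0, Pi.single (Sum.inr false) δ, 0⟩, InM.zero⟩
  let c : Gn p n := ⟨⟨0, Pi.single (Sum.inr true) δ, Pi.single j0 1⟩, InM.zero⟩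
  let x : ℕ → Gn p n := fun k => ⟨⟨0, Pi.single (Sum.inl (Fin.ofNat n (k + (n - 1)))) δ,
    Pi.single (Fin.ofNat n k) 1⟩, InM.zero⟩
  refine ⟨a, b, c, x, ?_⟩
  intro hcon
  have h1 := congrArg (Gn p n).subtype hcon
  rw [map_lawVal, map_one] at h1
  simp only [Subgroup.coe_subtype] at h1
  rw [lawVal_big] at h1
  -- the values
  have hv1 : ⁅((a : Gn p n) : Big p n), ((b : Gn p n) : Big p n)⁆ =
      io (dl (Pi.single (Sum.inr false) δ) (wit κ j0)) :=
    comm_io (wit κ j0) _ rfl
  have hv2 : (⁅⁅((a : Gn p n) : Big p n), ((b : Gn p n) : Big p n)⁆,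
      ((c : Gn p n) : Big p n) ^ p⁆).f =
      dl (Pi.single (Sum.inr true) (nu (Pi.single j0 1) δ))
        (dl (Pi.single (Sum.inr false) δ) (wit κ j0)) := by
    rw [hv1, comm_io _ _ (pow_p_q _), pow_p_v]
    show dl _ _ = _
    congr 1
    funext j
    show nu (Pi.single j0 1) ((Pi.single (Sum.inr true) δ : Slots n → Fn p n) j) = _
    by_cases hj : j = Sum.inr true
    · subst hj; simp
    · rw [Pi.single_eq_of_ne hj, Pi.single_eq_of_ne hj, nu_zero]
  rw [hv2] at h1
  have hels : els n (fun i => ((x i : Gn p n) : Big p n).q)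
      (fun i => ((x ((i + 1) % n) : Gn p n) : Big p n).v) =
      ((List.range n).map fun i => ((Sum.inl (Fin.ofNat n i) : Slots n),
        el (Pi.single (Fin.ofNat n i) 1 : Vec p n) (Pi.single (Fin.ofNat n i + 1) 1) δ)).map
        fun q => Pi.single q.1 q.2 := by
    rw [List.map_map]
    unfold els
    refine List.map_congr_left fun i hi => ?_
    rw [List.mem_range] at hi
    funext j
    show el (Pi.single (Fin.ofNat n i) 1 : Vec p n)
      (Pi.single (Fin.ofNat n ((i + 1) % n)) 1)
      ((Pi.single (Sum.inl (Fin.ofNat n ((i + 1) % n + (n - 1)))) δ : Slots n → Fn p n) j) = _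
    have e1 : (Fin.ofNat n ((i + 1) % n) : Fin n) = Fin.ofNat n i + 1 := by
      apply Fin.ext
      rw [Fin.val_add]
      simp [Fin.ofNat]
    have e2 : (Fin.ofNat n ((i + 1) % n + (n - 1)) : Fin n) = Fin.ofNat n i := by
      apply Fin.ext
      simp only [Fin.ofNat]
      rw [Nat.mod_add_mod]
      have : i + 1 + (n - 1) = i + n := by omega
      rw [this, Nat.add_mod_right]
    rw [e1, e2]
    show _ = (Pi.single (Sum.inl (Fin.ofNat n i)) _ : Slots n → Fn p n) j
    by_cases hj : j = Sum.inl (Fin.ofNat n i)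
    · subst hj; simp
    · rw [Pi.single_eq_of_ne hj, Pi.single_eq_of_ne hj, el_zero]
  rw [hels] at h1
  set ps : List (Slots n × Fn p n) := (List.range n).map fun i =>
    ((Sum.inl (Fin.ofNat n i) : Slots n),
        el (Pi.single (Fin.ofNat n i) 1 : Vec p n) (Pi.single (Fin.ofNat n i + 1) 1) δ) with hps
  let qs : List (Slots n × Fn p n) := (Sum.inr false, δ) ::
    (Sum.inr true, nu (Pi.single j0 1) δ) :: ps
  have h2 : dls (qs.map fun q => Pi.single q.1 q.2) (wit κ j0) = 0 := congrArg Big.f h1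
  have hnd : (qs.map Prod.fst).Nodup := by
    simp only [qs, List.map_cons, List.nodup_cons, List.mem_cons]
    refine ⟨?_, ?_, ?_⟩
    · rw [not_or]
      refine ⟨by simp, ?_⟩
      rw [hps, List.map_map]
      simp
    · rw [hps, List.map_map]
      simp
    · rw [hps, List.map_map]
      refine List.Nodup.map_on ?_ List.nodup_range
      intro i hi i' hi' hii
      rw [List.mem_range] at hi hi'
      simp only [Function.comp_apply, Sum.inl.injEq] at hii
      have := congrArg Fin.val hii
      simp only [Fin.ofNat] at this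
      rwa [Nat.mod_eq_of_lt hi, Nat.mod_eq_of_lt hi'] at this
  have h3 := dls_single_nodup (wit κ j0) (wit_update κ j0) qs [] (by simpa using hnd)
  have h4 : dls (qs.map fun q => Pi.single q.1 q.2) (wit κ j0) =
      fun u => wit κ j0 (upd qs u) := h3
  rw [h4] at h2
  have h5 : wit κ j0 (upd qs 0) = 0 := congrFun h2 0
  refine wit_ne_zero hn κ hκ j0 δ hδ (upd qs 0) ?_ ?_ ?_ h5
  · intro i
    apply upd_of_mem qs hnd
    apply List.mem_cons_of_mem
    apply List.mem_cons_of_mem
    rw [hps, List.mem_map]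
    refine ⟨i, by rw [List.mem_range]; exact i.2, ?_⟩
    have : (Fin.ofNat n (i : ℕ) : Fin n) = i := by
      apply Fin.ext
      simp [Fin.ofNat, Nat.mod_eq_of_lt i.2]
    rw [this]
  · apply upd_of_mem qs hnd
    simp [qs]
  · apply upd_of_mem qs hnd
    simp [qs]

end

end Pool.Agent.Lib.Pae074a
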