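import Pool.Agent.Lib.Pae074a.Alpha

set_option autoImplicit false

namespace Pool.Agent.Lib.Pae074a

open Finset

variable {p n : ℕ} [Fact p.Prime]

/-- The power sums over `ZMod p`. -/
theorem sum_pow_zero (i : ℕ) (hi : i < p - 1) : ∑ t : ZMod p, t ^ i = 0 := by
  have := FiniteField.sum_pow_lt_card_sub_one (K := ZMod p) i (by rw [ZMod.card]; exact hi)
  exact this

theorem sum_pow_last : ∑ t : ZMod p, t ^ (p - 1) = -1 := by
  have hp : 2 ≤ p := (Fact.out : p.Prime).two_le
  have h : ∀ t : ZMod p, t ^ (p - 1) = if t = 0 then 0 else 1 := by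
    intro t
    by_cases ht : t = 0
    · rw [if_pos ht, ht, zero_pow (by omega)]
    · rw [if_neg ht, ZMod.pow_card_sub_one_eq_one ht]
  simp_rw [h]
  rw [Finset.sum_ite, Finset.sum_const_zero, zero_add, Finset.sum_const, nsmul_eq_mul, mul_one]
  have : (Finset.univ.filter fun t : ZMod p => ¬ t = 0) = Finset.univ.erase 0 := by
    ext; simp
  rw [this, Finset.card_erase_of_mem (Finset.mem_univ _), Finset.card_univ, ZMod.card,
    Nat.cast_sub (by omega)]
  simp

/-- The key power sum identity. -/
theorem key_sum (a x b : ZMod p → ZMod p) :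
    ∑ t : ZMod p, (∏ c, (a c + x c + t * b c) - ∏ c, (a c + t * b c)) =
      -∑ c, x c * ∏ c' ∈ Finset.univ.erase c, b c' := by
  have hp : 2 ≤ p := (Fact.out : p.Prime).two_le
  have e1 : ∀ (u : ZMod p → ZMod p), ∑ t : ZMod p, ∏ c, (u c + t * b c) =
      (∏ c, b c) * (∑ t : ZMod p, t ^ p) - ∑ c, u c * ∏ c' ∈ Finset.univ.erase c, b c' := by
    intro u
    have h1 : ∀ t : ZMod p, ∏ c, (u c + t * b c) =
        ∑ S ∈ (Finset.univ : Finset (ZMod p)).powerset,
          ((∏ c ∈ S, u c) * ∏ c ∈ Finset.univ \ S, b c) * t ^ (p - S.card) := by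
      intro t
      rw [Finset.prod_add]
      refine Finset.sum_congr rfl fun S hS => ?_
      rw [Finset.prod_mul_distrib, Finset.prod_const, Finset.card_univ_sdiff, ZMod.card]
      ring
    simp_rw [h1]
    rw [Finset.sum_comm]
    simp_rw [← Finset.mul_sum]
    -- split by cardinality
    have h2 : ∀ S ∈ (Finset.univ : Finset (ZMod p)).powerset,
        ((∏ c ∈ S, u c) * ∏ c ∈ Finset.univ \ S, b c) * ∑ t : ZMod p, t ^ (p - S.card) =
        (if S = ∅ then (∏ c, b c) * ∑ t : ZMod p, t ^ p else 0) +
        (if S.card = 1 then -((∏ c ∈ S, u c) * ∏ c ∈ Finset.univ \ S, b c) else 0) := by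
      intro S hS
      by_cases h0 : S = ∅
      · subst h0
        simp
      · rw [if_neg h0, zero_add]
        by_cases h1 : S.card = 1
        · rw [if_pos h1, h1, sum_pow_last]
          ring
        · rw [if_neg h1, sum_pow_zero, mul_zero]
          have : 1 ≤ S.card := Finset.card_pos.mpr (Finset.nonempty_iff_ne_empty.mpr h0)
          omega
    rw [Finset.sum_congr rfl h2, Finset.sum_add_distrib, sub_eq_add_neg]
    congr 1
    · simp
    · rw [← Finset.sum_filter, ← Finset.powersetCard_eq_filter, Finset.powersetCard_one,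
        Finset.sum_map, ← Finset.sum_neg_distrib]
      refine Finset.sum_congr rfl fun c _ => ?_
      simp [Finset.sdiff_singleton_eq_erase]
  rw [Finset.sum_sub_distrib]
  have e2 := e1 a
  have e3 := e1 (fun c => a c + x c)
  rw [e2, e3]
  have : ∑ c, (a c + x c) * ∏ c' ∈ Finset.univ.erase c, b c' =
      ∑ c, a c * ∏ c' ∈ Finset.univ.erase c, b c' +
      ∑ c, x c * ∏ c' ∈ Finset.univ.erase c, b c' := by
    rw [← Finset.sum_add_distrib]
    exact Finset.sum_congr rfl fun c _ => by ring
  rw [this]
  ring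

theorem const_of_period (k : Idx p n) (e : ZMod p) (he : e ≠ 0) (h : ∀ c, k (c + e) = k c) :
    ∀ c c', k c = k c' := by
  have h1 : ∀ (m : ℕ) (c : ZMod p), k (c + m * e) = k c := by
    intro m
    induction m with
    | zero => intro c; simp
    | succ m ih =>
      intro c
      have : c + ((m + 1 : ℕ) : ZMod p) * e = (c + m * e) + e := by push_cast; ring
      rw [this, h, ih]
  intro c c'
  have h2 := h1 ((c' - c) * e⁻¹).val c
  rw [ZMod.natCast_zmod_val, mul_assoc, inv_mul_cancel₀ he, mul_one] at h2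
  rw [← h2]
  congr 1
  ring

/-- Shifting index tuples. -/
def idxSetoid (p n : ℕ) : Setoid (Idx p n) where
  r k k' := ∃ d : ZMod p, k' = fun c => k (c + d)
  iseqv :=
    { refl := fun k => ⟨0, by simp⟩
      symm := by
        rintro k k' ⟨d, rfl⟩
        exact ⟨-d, by funext c; simp⟩
      trans := by
        rintro k k' k'' ⟨d, rfl⟩ ⟨e, rfl⟩
        exact ⟨e + d, by funext c; simp [add_assoc]⟩ }

theorem exists_kappa (p n : ℕ) [Fact p.Prime] :
    ∃ κ : Idx p n → ZMod p, ∀ k : Idx p n, (∃ c c', k c ≠ k c') →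
      ∑ d : ZMod p, κ (fun c => k (c + d)) = 1 := by
  classical
  let rep : Idx p n → Idx p n := fun k => (Quotient.mk (idxSetoid p n) k).out
  have hrep1 : ∀ k, ∃ d, rep k = fun c => k (c + d) := by
    intro k
    have h1 : (idxSetoid p n).r (rep k) k := Quotient.exact (Quotient.out_eq _)
    exact (idxSetoid p n).symm h1
  have hrep2 : ∀ k d, rep (fun c => k (c + d)) = rep k := by
    intro k d
    have h1 : Quotient.mk (idxSetoid p n) (fun c => k (c + d)) = Quotient.mk (idxSetoid p n) k :=
      Quotient.sound ((idxSetoid p n).symm ⟨d, rfl⟩)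
    show (Quotient.mk (idxSetoid p n) (fun c => k (c + d))).out = _
    rw [h1]
  refine ⟨fun k => if k = rep k then 1 else 0, fun k hk => ?_⟩
  obtain ⟨d0, hd0⟩ := hrep1 k
  simp_rw [hrep2, hd0]
  rw [Finset.sum_eq_single_of_mem d0 (Finset.mem_univ _)]
  · simp
  · intro d _ hd
    rw [if_neg]
    intro hcon
    obtain ⟨c, c', hcc⟩ := hk
    apply hcc
    apply const_of_period k (d - d0) (sub_ne_zero.mpr hd)
    intro c
    have := congrFun hcon (c - d0)
    simp only [sub_add_cancel] at this
    rw [← this]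
    congr 1
    ring

/-- The slot module: functions on vectors. -/
abbrev Fn (p n : ℕ) := Vec p n → ZMod p

/-- Translation. -/
def tr (x : Vec p n) (u : Fn p n) : Fn p n := fun q => u (q - x)

/-- The norm element. -/
def nu (y : Vec p n) (w : Fn p n) : Fn p n := fun q => ∑ t : ZMod p, w (q - t • y)

/-- The elements by which the commutators `[x, y ^ p]` translate. -/
def el (x y : Vec p n) (w : Fn p n) : Fn p n := tr x (nu y w) - nu y w

theorem pair_tr (x : Vec p n) (u h : Fn p n) :
    ∑ q, tr x u q * h q = ∑ q, u q * h (q + x) := by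
  refine Fintype.sum_equiv (Equiv.subRight x) _ _ fun q => ?_
  simp [tr]

theorem pair_nu (y : Vec p n) (w h : Fn p n) :
    ∑ q, nu y w q * h q = ∑ q, w q * ∑ t : ZMod p, h (q + t • y) := by
  unfold nu
  simp_rw [Finset.sum_mul, Finset.mul_sum]
  rw [Finset.sum_comm]
  conv_rhs => rw [Finset.sum_comm]
  refine Finset.sum_congr rfl fun t _ => ?_
  exact pair_tr (t • y) w h

theorem pair_el (x y : Vec p n) (w h : Fn p n) :
    ∑ q, el x y w q * h q =
      ∑ q, w q * ∑ t : ZMod p, (h (q + t • y + x) - h (q + t • y)) := by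
  unfold el
  simp only [Pi.sub_apply, sub_mul, Finset.sum_sub_distrib, mul_sub]
  rw [pair_tr, pair_nu y w (fun q => h (q + x)), pair_nu]

/-- The functional of a slot. -/
noncomputable def rho (κ : Idx p n → ZMod p) : Fn p n →ₗ[ZMod p] Ten p n where
  toFun u := fun k => κ k * ∑ q, u q * ∏ c, q (k c)
  map_add' u v := by
    funext k
    simp only [Pi.add_apply, add_mul, Finset.sum_add_distrib, mul_add]
  map_smul' a u := by
    funext k
    simp only [Pi.smul_apply, smul_eq_mul, RingHom.id_apply, mul_assoc, ← Finset.mul_sum]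
    ring

theorem rho_el (κ : Idx p n → ZMod p) (x y : Vec p n) (w : Fn p n) (k : Idx p n) :
    rho κ (el x y w) k =
      -(∑ q, w q) * (κ k * ∑ c, x (k c) * ∏ c' ∈ Finset.univ.erase c, y (k c')) := by
  show κ k * ∑ q, el x y w q * ∏ c, q (k c) = _
  rw [pair_el x y w (fun q => ∏ c, q (k c))]
  have h : ∀ q : Vec p n, ∑ t : ZMod p, ((∏ c, (q + t • y + x) (k c)) -
      ∏ c, (q + t • y) (k c)) = -∑ c, x (k c) * ∏ c' ∈ Finset.univ.erase c, y (k c') := by
    intro q
    rw [← key_sum (fun c => q (k c)) (fun c => x (k c)) (fun c => y (k c))]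
    refine Finset.sum_congr rfl fun t _ => ?_
    congr 1
    refine Finset.prod_congr rfl fun c _ => ?_
    simp only [Pi.add_apply, Pi.smul_apply, smul_eq_mul]
    ring
  simp_rw [h]
  rw [← Finset.sum_mul]
  ring

theorem slot_eval (κ : Idx p n → ZMod p)
    (hκ : ∀ k : Idx p n, (∃ c c', k c ≠ k c') → ∑ d : ZMod p, κ (fun c => k (c + d)) = 1)
    (S : Ten p n →ₗ[ZMod p] ZMod p) (hS1 : ∀ (d : ZMod p) (y : Ten p n), S (sh d y) = S y)
    (hS2 : ∀ k : Idx p n, (∀ c c', k c = k c') → S (Pi.single k 1) = 0)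
    (x y : Vec p n) (w : Fn p n) :
    S (rho κ (el x y w)) = -(∑ q, w q) * S (pure (cyc x y)) := by
  classical
  have hexp : ∀ u : Ten p n, S u = ∑ k, u k * S (Pi.single k 1) := by
    intro u
    conv_lhs => rw [show u = ∑ k, u k • (Pi.single k 1 : Ten p n) from
      (pi_eq_sum_univ' u).trans (Finset.sum_congr rfl fun k _ => by congr 1)]
    rw [map_sum]
    simp
  have hs : ∀ (d : ZMod p) (k : Idx p n), S (Pi.single (fun c => k (c + d)) 1) =
      S (Pi.single k 1) := by
    intro d k
    rw [← hS1 d (Pi.single k 1)]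
    congr 1
    funext k'
    rw [sh_apply, Pi.single_apply, Pi.single_apply]
    congr 1
    apply propext
    constructor
    · rintro rfl
      funext c
      simp
    · intro h
      funext c
      rw [← h]
      simp
  have hpure : ∀ k : Idx p n, pure (cyc x y) k =
      x (k 0) * ∏ c' ∈ Finset.univ.erase 0, y (k c') := by
    intro k
    unfold pure
    rw [← Finset.mul_prod_erase Finset.univ (fun c => cyc x y c (k c))
      (Finset.mem_univ (0 : ZMod p))]
    have h0 : cyc x y 0 (k 0) = x (k 0) := by simp [cyc]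
    have h1 : ∏ c ∈ Finset.univ.erase (0 : ZMod p), cyc x y c (k c) =
        ∏ c ∈ Finset.univ.erase (0 : ZMod p), y (k c) :=
      Finset.prod_congr rfl fun c hc => by simp [cyc, Finset.ne_of_mem_erase hc]
    rw [h0, h1]
  have hpc : ∀ (c : ZMod p) (k : Idx p n), x (k c) * ∏ c' ∈ Finset.univ.erase c, y (k c') =
      pure (cyc x y) (fun c' => k (c' + c)) := by
    intro c k
    rw [hpure]
    congr 1
    · simp
    · refine Finset.prod_bij' (fun c' _ => c' - c) (fun c' _ => c' + c) ?_ ?_ ?_ ?_ ?_
      · intro c' hc'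
        simp only [mem_erase, mem_univ, and_true] at hc' ⊢
        exact sub_ne_zero.mpr hc'
      · intro c' hc'
        simp only [mem_erase, mem_univ, and_true] at hc' ⊢
        intro h
        apply hc'
        simpa using h
      · intro c' _; simp
      · intro c' _; simp
      · intro c' _; simp
  rw [hexp, hexp (pure (cyc x y))]
  simp_rw [rho_el, hpc]
  have e1 : ∑ k : Idx p n, (κ k * ∑ c, pure (cyc x y) (fun c' => k (c' + c))) *
      S (Pi.single k 1) = ∑ k : Idx p n, pure (cyc x y) k * S (Pi.single k 1) := by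
    have e2 : ∀ k : Idx p n, (κ k * ∑ c, pure (cyc x y) (fun c' => k (c' + c))) *
      S (Pi.single k 1) = ∑ c, κ k * pure (cyc x y) (fun c' => k (c' + c)) *
      S (Pi.single k 1) := by
      intro k
      rw [Finset.mul_sum, Finset.sum_mul]
    simp_rw [e2]
    rw [Finset.sum_comm]
    have e3 : ∀ c : ZMod p, ∑ k : Idx p n, κ k * pure (cyc x y) (fun c' => k (c' + c)) *
        S (Pi.single k 1) = ∑ k : Idx p n, κ (fun c' => k (c' + -c)) * pure (cyc x y) k *
        S (Pi.single k 1) := by
      intro c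
      refine Fintype.sum_equiv (Equiv.arrowCongr (Equiv.subRight c) (Equiv.refl _)) _ _ fun k => ?_
      have h1 : (Equiv.arrowCongr (Equiv.subRight c) (Equiv.refl (Fin n))) k =
          fun c' => k (c' + c) := by
        funext c'
        simp [Equiv.arrowCongr]
      rw [h1, hs c k]
      congr 3
      funext c'
      simp
    simp_rw [e3]
    rw [Finset.sum_comm]
    refine Finset.sum_congr rfl fun k _ => ?_
    by_cases hk : ∃ c c', k c ≠ k c'
    · have e4 : ∑ c : ZMod p, κ (fun c' => k (c' + -c)) = 1 := by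
        rw [← hκ k hk]
        exact Fintype.sum_equiv (Equiv.neg _) _ _ fun c => by simp
      have e5 : ∑ c : ZMod p, κ (fun c' => k (c' + -c)) * pure (cyc x y) k *
          S (Pi.single k 1) = (∑ c : ZMod p, κ (fun c' => k (c' + -c))) *
          (pure (cyc x y) k * S (Pi.single k 1)) := by
        rw [Finset.sum_mul]
        exact Finset.sum_congr rfl fun c _ => by ring
      rw [e5, e4, one_mul]
    · push Not at hk
      rw [hS2 k hk]
      simp
  rw [← e1, Finset.mul_sum]
  exact Finset.sum_congr rfl fun k _ => by ring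

end Pool.Agent.Lib.Pae074a
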